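import Pool.Agent.E8helper19.LC.Stm3

/-!
# Project LC: piece LC37 (S_PW)
-/

set_option autoImplicit false
open MeasureTheory Filter Topology Set
open scoped ContDiff Real

namespace Pool.Agent.E8helper83.LC

open Pool.Agent.E8helper19.LC

noncomputable section

lemma cos_lo_hi (x : ℝ) :
    0 ≤ Real.cos x - 1 + x ^ 2 / 2 ∧ Real.cos x - 1 + x ^ 2 / 2 ≤ |x| ^ 3 := by
  constructor
  · have := Real.one_sub_sq_div_two_le_cos (x := x)
    linarith
  · rcases le_total |x| 1 with h | h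
    · have h1 := Real.cos_bound h
      have h2 := (abs_le.1 h1).2
      have h3 : |x| ^ 4 * (5 / 96) ≤ |x| ^ 3 := by
        have h4 : |x| ^ 4 = |x| ^ 3 * |x| := by ring
        have h5 : 0 ≤ |x| ^ 3 := by positivity
        rw [h4]
        nlinarith [abs_nonneg x, mul_le_mul_of_nonneg_left h h5]
      linarith
    · have h1 := Real.cos_le_one x
      have h2 : x ^ 2 / 2 ≤ |x| ^ 3 := by
        have h3 : x ^ 2 = |x| ^ 2 := (sq_abs x).symm
        have h4 : |x| ^ 3 = |x| ^ 2 * |x| := by ring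
        rw [h3, h4]
        nlinarith [sq_nonneg |x|, mul_le_mul_of_nonneg_left h (sq_nonneg |x|)]
      linarith

lemma y_tendsto (k : ℝ) : Tendsto (fun α : ℝ => √(1 - 4 * k ^ 2 / α ^ 2)) atTop (𝓝 1) := by
  have h1 : Tendsto (fun α : ℝ => 4 * k ^ 2 / α ^ 2) atTop (𝓝 0) :=
    tendsto_const_nhds.div_atTop (tendsto_pow_atTop (by norm_num))
  have h2 : Tendsto (fun α : ℝ => 1 - 4 * k ^ 2 / α ^ 2) atTop (𝓝 1) := by
    have := (tendsto_const_nhds (x := (1 : ℝ))).sub h1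
    simpa using this
  have h3 := (Real.continuous_sqrt.tendsto 1).comp h2
  rw [Real.sqrt_one] at h3
  exact h3

lemma m_tendsto {k : ℝ} (hk : 0 < k) :
    Tendsto (fun α : ℝ => α ^ 2 * (α ^ 3 / (32 * mu α k ^ 3) - 1 / 4)) atTop
      (𝓝 (3 * k ^ 2 / 2)) := by
  have hy := y_tendsto k
  have h1 : Tendsto (fun α : ℝ => k ^ 2 * (1 + √(1 - 4 * k ^ 2 / α ^ 2) +
      √(1 - 4 * k ^ 2 / α ^ 2) ^ 2) / ((1 + √(1 - 4 * k ^ 2 / α ^ 2)) *
      √(1 - 4 * k ^ 2 / α ^ 2) ^ 3)) atTop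
      (𝓝 (k ^ 2 * (1 + 1 + 1 ^ 2) / ((1 + 1) * 1 ^ 3))) :=
    Tendsto.div (((tendsto_const_nhds.add hy).add (hy.pow 2)).const_mul _)
      ((tendsto_const_nhds.add hy).mul (hy.pow 3)) (by norm_num)
  have h2 : k ^ 2 * (1 + 1 + 1 ^ 2) / ((1 + 1) * 1 ^ 3) = 3 * k ^ 2 / 2 := by ring
  rw [h2] at h1
  refine h1.congr' ?_
  filter_upwards [eventually_gt_atTop (2 * k)] with α hα
  have hα0 : 0 < α := by linarith
  set y := √(1 - 4 * k ^ 2 / α ^ 2) with hyd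
  have hx : 0 < 1 - 4 * k ^ 2 / α ^ 2 := by
    rw [sub_pos, div_lt_one (by positivity)]
    nlinarith
  have hy0 : 0 < y := Real.sqrt_pos.2 hx
  have hy2 : y ^ 2 = 1 - 4 * k ^ 2 / α ^ 2 := Real.sq_sqrt hx.le
  have hk2 : 4 * k ^ 2 = α ^ 2 * (1 - y ^ 2) := by rw [hy2]; field_simp; ring
  have hmu : mu α k = α / 2 * y := by
    unfold mu
    rw [show α ^ 2 / 4 - k ^ 2 = (α / 2 * y) ^ 2 by nlinarith]
    exact Real.sqrt_sq (by positivity)
  rw [hmu]
  have hk3 : k ^ 2 = α ^ 2 * (1 - y ^ 2) / 4 := by linarith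
  rw [hk3]
  field_simp
  ring

lemma pw_cont (k : ℝ) : Continuous (pw k) := by
  unfold pw
  fun_prop

lemma pw_norm (k s : ℝ) : ‖pw k s‖ = 1 := by
  unfold pw
  rw [show Complex.I * k * s = ((k * s : ℝ) : ℂ) * Complex.I by push_cast; ring]
  exact Complex.norm_exp_ofReal_mul_I _

lemma pw_BC (k : ℝ) : BC (pw k) := ⟨pw_cont k, 1, fun s => (pw_norm k s).le⟩

lemma pw_mul (k s t : ℝ) : pw (-k) s * pw k t =
    (Real.cos (k * (t - s)) : ℂ) + (Real.sin (k * (t - s)) : ℂ) * Complex.I := by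
  unfold pw
  rw [← Complex.exp_add, show Complex.I * ((-k : ℝ) : ℂ) * s + Complex.I * k * t =
    ((k * (t - s) : ℝ) : ℂ) * Complex.I by push_cast; ring, Complex.exp_mul_I,
    Complex.ofReal_cos, Complex.ofReal_sin]

lemma kap_int {γ : ℝ → P} {L : ℝ} (hc : Continuous (kap2 γ)) (h0 : ∀ s, L < |s| → kap2 γ s = 0) :
    Integrable (kap2 γ) := by
  apply hc.integrable_of_hasCompactSupport
  apply HasCompactSupport.of_support_subset_isCompact (isCompact_Icc (a := -L) (b := L))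
  intro s hs
  by_contra h
  apply hs
  apply h0
  rw [mem_Icc, not_and_or, not_le, not_le] at h
  rcases h with h | h
  · rw [lt_abs]; right; linarith
  · rw [lt_abs]; left; exact h

/-- the bilinear form of plane waves -/
lemma form {α k : ℝ} {γ : ℝ → P} (hi : Integrable (fun z : ℝ × ℝ => Dk α k γ z.1 z.2))
    (hs : ∀ s t, Dk α k γ s t = Dk α k γ t s) :
    ∫ s, pw (-k) s * DD α k γ (pw k) s =
      ((∫ z : ℝ × ℝ, Dk α k γ z.1 z.2 * Real.cos (k * (z.2 - z.1)) : ℝ) : ℂ) := by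
  set F : ℝ × ℝ → ℂ := fun z => (Dk α k γ z.1 z.2 : ℂ) * (pw (-k) z.1 * pw k z.2) with hF
  have hFi : Integrable F := by
    refine Integrable.mono' hi.norm ?_ ?_
    · refine hi.ofReal.aestronglyMeasurable.mul ?_
      exact (((pw_cont (-k)).comp continuous_fst).mul
        ((pw_cont k).comp continuous_snd)).aestronglyMeasurable
    · refine ae_of_all _ fun z => ?_
      simp only [hF]
      rw [norm_mul, norm_mul, pw_norm, pw_norm, mul_one, mul_one, Complex.norm_real]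
  have h1 : ∫ s, pw (-k) s * DD α k γ (pw k) s = ∫ z, F z := by
    rw [Measure.volume_eq_prod] at hFi ⊢
    rw [integral_prod _ hFi]
    refine integral_congr_ae (ae_of_all _ fun s => ?_)
    simp only [hF]
    unfold DD
    rw [← integral_const_mul]
    refine integral_congr_ae (ae_of_all _ fun t => ?_)
    simp only
    ring
  have hFs : Integrable (fun z : ℝ × ℝ => F z.swap) := by
    rw [Measure.volume_eq_prod] at hFi ⊢
    exact hFi.swap
  have h2 : ∫ z : ℝ × ℝ, F z.swap = ∫ z : ℝ × ℝ, F z := by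
    rw [Measure.volume_eq_prod]
    exact integral_prod_swap F
  have h3 : ∫ z : ℝ × ℝ, (F z + F z.swap) = 2 * ∫ z : ℝ × ℝ, F z := by
    rw [integral_add hFi hFs, h2]
    ring
  have h4 : ∀ z : ℝ × ℝ, F z + F z.swap =
      2 * ((Dk α k γ z.1 z.2 * Real.cos (k * (z.2 - z.1)) : ℝ) : ℂ) := by
    intro z
    simp only [hF, Prod.fst_swap, Prod.snd_swap]
    rw [pw_mul, pw_mul, hs z.2 z.1, show k * (z.1 - z.2) = -(k * (z.2 - z.1)) by ring,
      Real.cos_neg, Real.sin_neg]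
    push_cast
    ring
  have h5 : ∫ z : ℝ × ℝ, (F z + F z.swap) =
      2 * ((∫ z : ℝ × ℝ, Dk α k γ z.1 z.2 * Real.cos (k * (z.2 - z.1)) : ℝ) : ℂ) := by
    rw [← integral_complex_ofReal, ← integral_const_mul]
    exact integral_congr_ae (ae_of_all _ h4)
  rw [h1]
  have h6 := h3.symm.trans h5
  exact mul_left_cancel₀ two_ne_zero h6

theorem t_PW (h : S_U1) (h3 : S_U3) (h4 : S_SEC) (h5 : S_D3) (hT : S_TAY) : S_PW := by
  intro γ L hγ hL
  obtain ⟨C1, hC1, H1⟩ := h γ L hγ hL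
  obtain ⟨C3, hC3, H3⟩ := h3 γ L hγ hL
  obtain ⟨CT, hCT, -, -, -, hkc, hk0⟩ := hT γ L hγ
  have hki := kap_int hkc hk0
  refine ⟨C3 + 3, by linarith, fun k hk => ?_⟩
  obtain ⟨A1, hA1, H1⟩ := H1 k hk
  obtain ⟨A3, hA3, H3⟩ := H3 k hk
  set K := ∫ s, kap2 γ s with hK
  have T1 := h4 γ L k hγ hL hk
  have T2 : Tendsto (fun α : ℝ => (α ^ 2 * (α ^ 3 / (32 * mu α k ^ 3) - 1 / 4)) * K) atTop
      (𝓝 (3 * k ^ 2 / 2 * K)) := (m_tendsto hk).mul_const K
  have T1' : Tendsto (fun α : ℝ => k ^ 2 / 4 * (α ^ 4 * ∫ z : ℝ × ℝ,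
      Dk α k γ z.1 z.2 * |z.1 - z.2| ^ 2)) atTop (𝓝 (k ^ 2 / 4 * (30 * K))) := T1.const_mul _
  have E1 := Metric.tendsto_nhds.1 T1' 1 one_pos
  have E2 := Metric.tendsto_nhds.1 T2 1 one_pos
  obtain ⟨B, hB⟩ := ((E1.and E2).and ((eventually_ge_atTop A1).and
    ((eventually_ge_atTop A3).and ((eventually_ge_atTop (k ^ 3 * C1)).and
      (eventually_gt_atTop (2 * k)))))).exists_forall_of_atTop
  refine ⟨max B (2 * k + 1), lt_of_lt_of_le (by linarith) (le_max_right _ _), fun α hα => ?_⟩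
  obtain ⟨⟨e1, e2⟩, a1, a3, a4, a5⟩ := hB α ((le_max_left _ _).trans hα)
  obtain ⟨-, -, i2, -, i3, u3⟩ := H1 α a1
  have v3 := H3 α a3
  obtain ⟨d0, ds, di, -, -, df⟩ := h5 γ L k α hγ hL hk a5
  have hα0 : 0 < α := by linarith
  obtain ⟨-, dint, -, -⟩ := df (pw k) (pw_BC k)
  rw [Real.dist_eq] at e1 e2
  set I0 := ∫ z : ℝ × ℝ, Dk α k γ z.1 z.2 with hI0
  set I2 := ∫ z : ℝ × ℝ, Dk α k γ z.1 z.2 * |z.1 - z.2| ^ 2 with hI2
  set I3 := ∫ z : ℝ × ℝ, Dk α k γ z.1 z.2 * |z.1 - z.2| ^ 3 with hI3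
  set Ic := ∫ z : ℝ × ℝ, Dk α k γ z.1 z.2 * Real.cos (k * (z.2 - z.1)) with hIc
  -- the cosine
  have ci : Integrable (fun z : ℝ × ℝ => Dk α k γ z.1 z.2 * Real.cos (k * (z.2 - z.1))) := by
    refine Integrable.mono' di.norm ?_ ?_
    · refine di.aestronglyMeasurable.mul (Continuous.aestronglyMeasurable ?_)
      fun_prop
    · refine ae_of_all _ fun z => ?_
      rw [norm_mul]
      exact mul_le_of_le_one_right (norm_nonneg _) (Real.abs_cos_le_one _)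
  have hx : ∀ z : ℝ × ℝ, (k * (z.2 - z.1)) ^ 2 = k ^ 2 * |z.1 - z.2| ^ 2 := by
    intro z
    rw [sq_abs]
    ring
  have hx3 : ∀ z : ℝ × ℝ, |k * (z.2 - z.1)| ^ 3 = k ^ 3 * |z.1 - z.2| ^ 3 := by
    intro z
    rw [abs_mul, abs_of_pos hk, abs_sub_comm, mul_pow]
  have ec : Ic - I0 + k ^ 2 / 2 * I2 = ∫ z : ℝ × ℝ, Dk α k γ z.1 z.2 *
      (Real.cos (k * (z.2 - z.1)) - 1 + (k * (z.2 - z.1)) ^ 2 / 2) := by
    have e7 : ∫ z : ℝ × ℝ, (Dk α k γ z.1 z.2 * Real.cos (k * (z.2 - z.1)) - Dk α k γ z.1 z.2 +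
        k ^ 2 / 2 * (Dk α k γ z.1 z.2 * |z.1 - z.2| ^ 2)) = Ic - I0 + k ^ 2 / 2 * I2 := by
      rw [integral_add (f := fun z : ℝ × ℝ => Dk α k γ z.1 z.2 * Real.cos (k * (z.2 - z.1)) -
        Dk α k γ z.1 z.2) (ci.sub di) (i2.const_mul _), integral_sub ci di, integral_const_mul]
    rw [← e7]
    refine integral_congr_ae (ae_of_all _ fun z => ?_)
    simp only
    rw [hx z]
    ring
  have ec0 : 0 ≤ Ic - I0 + k ^ 2 / 2 * I2 := by
    rw [ec]
    exact integral_nonneg fun z => mul_nonneg (d0 _ _) (cos_lo_hi _).1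
  have ec1 : Ic - I0 + k ^ 2 / 2 * I2 ≤ k ^ 3 * I3 := by
    rw [ec, hI3, ← integral_const_mul]
    refine integral_mono_of_nonneg (ae_of_all _ fun z => mul_nonneg (d0 _ _) (cos_lo_hi _).1)
      (i3.const_mul _) (ae_of_all _ fun z => ?_)
    simp only
    have := mul_le_mul_of_nonneg_left (cos_lo_hi (k * (z.2 - z.1))).2 (d0 z.1 z.2)
    rw [hx3 z] at this
    linarith
  have ec2 : α ^ 4 / 2 * (Ic - I0 + k ^ 2 / 2 * I2) ≤ 1 := by
    have h6 : k ^ 3 * I3 ≤ k ^ 3 * (C1 / α ^ 5) := mul_le_mul_of_nonneg_left u3 (by positivity)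
    have h7 : α ^ 4 / 2 * (k ^ 3 * (C1 / α ^ 5)) = k ^ 3 * C1 / (2 * α) := by
      field_simp
    have h8 : k ^ 3 * C1 / (2 * α) ≤ 1 := by
      rw [div_le_one (by positivity)]
      linarith
    calc α ^ 4 / 2 * (Ic - I0 + k ^ 2 / 2 * I2) ≤ α ^ 4 / 2 * (k ^ 3 * (C1 / α ^ 5)) :=
          mul_le_mul_of_nonneg_left (ec1.trans h6) (by positivity)
      _ ≤ 1 := by rw [h7]; exact h8
  -- the integral of `D`
  have hD0 : I0 = ∫ s, ∫ t, Dk α k γ t s := by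
    rw [hI0]
    have di' := di
    rw [Measure.volume_eq_prod] at di' ⊢
    rw [integral_prod _ di']
    refine integral_congr_ae (ae_of_all _ fun s => ?_)
    exact integral_congr_ae (ae_of_all _ fun t => ds s t)
  have hDi : Integrable (fun s => ∫ t, Dk α k γ t s) := by
    have di' := di
    rw [Measure.volume_eq_prod] at di'
    refine di'.integral_prod_left.congr (ae_of_all _ fun s => ?_)
    exact integral_congr_ae (ae_of_all _ fun t => ds s t)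
  set m := α ^ 3 / (32 * mu α k ^ 3) with hm
  have ed : |α ^ 2 / 2 * I0 - m * K| ≤ C3 / α ^ 2 := by
    rw [hD0, hK, ← integral_const_mul, ← integral_const_mul,
      ← integral_sub (hDi.const_mul _) (hki.const_mul _)]
    refine (abs_integral_le_integral_abs).trans v3
  have ed2 : α ^ 2 * |α ^ 2 / 2 * I0 - m * K| ≤ C3 := by
    have := mul_le_mul_of_nonneg_left ed (sq_nonneg α)
    rwa [mul_div_cancel₀ _ (by positivity)] at this
  -- the complex integral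
  have hfin : ((α ^ 2 : ℝ) : ℂ) * (∫ s, pw (-k) s * (((α ^ 2 / 2 : ℝ) : ℂ) * DD α k γ (pw k) s -
        ((kap2 γ s / 4 : ℝ) : ℂ) * pw k s)) + ((6 * k ^ 2 * K : ℝ) : ℂ) =
      ((α ^ 2 * (α ^ 2 / 2 * Ic - K / 4) + 6 * k ^ 2 * K : ℝ) : ℂ) := by
    have e3 : ∀ s, pw (-k) s * (((α ^ 2 / 2 : ℝ) : ℂ) * DD α k γ (pw k) s -
        ((kap2 γ s / 4 : ℝ) : ℂ) * pw k s) = ((α ^ 2 / 2 : ℝ) : ℂ) * (pw (-k) s *
          DD α k γ (pw k) s) - ((kap2 γ s / 4 : ℝ) : ℂ) := by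
      intro s
      have e4 : pw (-k) s * pw k s = 1 := by
        rw [pw_mul, sub_self, mul_zero, Real.cos_zero, Real.sin_zero]
        simp
      linear_combination (-((kap2 γ s / 4 : ℝ) : ℂ)) * e4
    have i5 : Integrable (fun s => pw (-k) s * DD α k γ (pw k) s) := by
      refine Integrable.mono' dint.norm ?_ ?_
      · exact (pw_cont (-k)).aestronglyMeasurable.mul dint.aestronglyMeasurable
      · refine ae_of_all _ fun s => ?_
        rw [norm_mul, pw_norm, one_mul]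
    have i6 : Integrable (fun s => ((kap2 γ s / 4 : ℝ) : ℂ)) := (hki.div_const 4).ofReal
    rw [integral_congr_ae (ae_of_all _ e3), integral_sub (i5.const_mul _) i6,
      integral_const_mul, form di ds, integral_complex_ofReal, integral_div]
    push_cast
    ring
  rw [hfin, Complex.norm_real, Real.norm_eq_abs]
  have hsum : α ^ 2 * (α ^ 2 / 2 * Ic - K / 4) + 6 * k ^ 2 * K =
      α ^ 2 * (α ^ 2 / 2 * I0 - m * K) + (α ^ 2 * (m - 1 / 4) * K - 3 * k ^ 2 / 2 * K) -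
        (k ^ 2 / 4 * (α ^ 4 * I2) - k ^ 2 / 4 * (30 * K)) +
        α ^ 4 / 2 * (Ic - I0 + k ^ 2 / 2 * I2) := by
    ring
  rw [hsum]
  have ed3 : |α ^ 2 * (α ^ 2 / 2 * I0 - m * K)| ≤ C3 := by
    rw [abs_mul, abs_of_nonneg (sq_nonneg α)]
    exact ed2
  have hpos : 0 ≤ α ^ 4 / 2 * (Ic - I0 + k ^ 2 / 2 * I2) := by positivity
  have q1 := abs_le.1 ed3
  have q2 := abs_le.1 e2.le
  have q3 := abs_le.1 e1.le
  rw [abs_le]
  constructor <;> linarith [q1.1, q1.2, q2.1, q2.2, q3.1, q3.2]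

end

end Pool.Agent.E8helper83.LC
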